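import Pool.Agent.H53.VK.Stm2

set_option autoImplicit false

namespace VK

theorem SCL_good_mono {A B A' B' : Finset Pt} {K : Finset (Pt × Pt)} (hA : A' ⊆ A) (hB : B' ⊆ B)
    (h : Good A' B' K) : Good A B K :=
  ⟨h.1.trans (Finset.product_subset_product hA hB), h.2⟩

theorem SCL_proved (hW : WLM_stmt) (hK : KFM_stmt) (hE : EXT_stmt) : SCL_stmt := by
  classical
  intro A B g e k n hdis hNe hne hA hB hk h1 h2 hF
  set T : Finset Pt := (A ∪ B).filter (fun z => ev g z < 0) with hT
  obtain ⟨z0, hz0, hz0g, hz0e⟩ := h2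
  obtain ⟨f, w, hwT, hfw, hew, hfT, hfneg⟩ := hW T e g
    (fun z hz => (Finset.mem_filter.1 hz).2) ⟨z0, Finset.mem_filter.2 ⟨hz0, hz0g⟩, hz0e⟩
  set X : Finset Pt := A.filter (fun z => 0 < ev g z) with hX
  set Y : Finset Pt := B.filter (fun z => 0 < ev g z) with hY
  have hXn : X.Nonempty := by rw [← Finset.card_pos]; omega
  have hYn : Y.Nonempty := by rw [← Finset.card_pos]; omega
  have hXe : ∀ z ∈ X, ev e z = 0 ∧ ev f z < 0 := by
    intro z hz
    have hz' := Finset.mem_filter.1 hz
    have he : ev e z = 0 := h1 z (Finset.mem_union_left _ hz'.1) hz'.2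
    exact ⟨he, hfneg z he hz'.2⟩
  have hYe : ∀ z ∈ Y, ev e z = 0 ∧ ev f z < 0 := by
    intro z hz
    have hz' := Finset.mem_filter.1 hz
    have he : ev e z = 0 := h1 z (Finset.mem_union_right _ hz'.1) hz'.2
    exact ⟨he, hfneg z he hz'.2⟩
  have hXA : X ⊆ A := Finset.filter_subset _ _
  have hYB : Y ⊆ B := Finset.filter_subset _ _
  obtain ⟨⟨K1, hG1, hc1, hm1⟩, ⟨K2, hG2, hc2, hm2⟩⟩ := hK X Y e w hXn hYn (by
    intro z hz
    rcases Finset.mem_union.1 hz with h | h
    · exact (hXe z h).1
    · exact (hYe z h).1) hew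
  have hpos : ∀ z ∈ A.filter (fun z => ev g z < 0) ∪ B.filter (fun z => ev g z < 0), 0 ≤ ev f z := by
    intro z hz
    apply hfT
    rw [hT, Finset.mem_filter, Finset.mem_union]
    rcases Finset.mem_union.1 hz with h | h
    · exact ⟨Or.inl (Finset.mem_filter.1 h).1, (Finset.mem_filter.1 h).2⟩
    · exact ⟨Or.inr (Finset.mem_filter.1 h).1, (Finset.mem_filter.1 h).2⟩
  have hwAB := (Finset.mem_filter.1 hwT).1
  rcases Finset.mem_union.1 hwAB with hwA | hwB
  · have hG : Good A B K1 := SCL_good_mono (Finset.insert_subset hwA hXA) hYB hG1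
    have := hE A B (A.filter (fun z => ev g z < 0)) (B.filter (fun z => ev g z < 0)) K1 n
      (Finset.filter_subset _ _) (Finset.filter_subset _ _) hG (by
        intro d hd
        have hd2 := Finset.mem_product.1 (hG1.1 hd)
        have h2 := (hYe d.2 hd2.2).2
        refine ⟨f, hpos, ?_, h2.le, Or.inr h2⟩
        rcases Finset.mem_insert.1 hd2.1 with h | h
        · rw [h, hfw]
        · exact (hXe _ h).2.le) hF
    rw [hc1, hB] at this
    exact this
  · have hG : Good A B K2 := SCL_good_mono hXA (Finset.insert_subset hwB hYB) hG2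
    have := hE A B (A.filter (fun z => ev g z < 0)) (B.filter (fun z => ev g z < 0)) K2 n
      (Finset.filter_subset _ _) (Finset.filter_subset _ _) hG (by
        intro d hd
        have hd2 := Finset.mem_product.1 (hG2.1 hd)
        have h2 := (hXe d.1 hd2.1).2
        refine ⟨f, hpos, h2.le, ?_, Or.inl h2⟩
        rcases Finset.mem_insert.1 hd2.2 with h | h
        · rw [h, hfw]
        · exact (hYe _ h).2.le) hF
    rw [hc2, hA] at this
    exact this

end VK
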